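import Pool.Agent.Helper77.Neck.Fin

/-!
# A network which is not weakly Eulerian and whose search value does not depend on the start

The search game with an immobile hider on a network: the searcher starts at a point `O` and moves
with speed at most `1`, the hider is at a fixed point `H`, the payoff to the hider is the capture
time.  Gal's question asks whether a network whose value is the same for every starting point is
weakly Eulerian.  The answer is no.

The example is a necklace of `20` hexagons: the hexagon `i` (`i` modulo `20`) has the corners
`(i, 0), …, (i, 5)`, in which `(i, 0)` and `(i, 3)` are opposite, and a further arc, a connector,
joins `(i, 3)` to `(i + 1, 0)`.  All the `140` arcs have length `1`.  There are no bridges and the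
corners `(i, 0)` and `(i, 3)` have degree three, so that the network is not weakly Eulerian.

* Searcher: choose at random one of the connectors not containing the starting point; without this
  connector the rest is traversed by a closed path of length `158` which covers the hexagons once
  and the other connectors twice; follow it in a random direction, then do the same with another
  connector deleted.  The expected capture time is at most `79` for every point.
* Hider, when the starting point is in the hexagon `s`: be uniformly distributed on the hexagon `s`
  with probability `6 / 158`, and at each of the `76` corners of degree two of the other hexagons
  with probability `2 / 158`.  The expected capture time is at least `79` for every path.  When the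
  starting point is inside a connector one takes a mixture of the strategies of the two ends.
-/

namespace Pool.Agent.Results.MP_3e0b2d_co.GalConjectureFalse

open Pool.Agent.Gal

/-- There is a network with unit arcs and without bridges which is not weakly Eulerian and for
which the value of the search game is `79` for every starting point `O`. -/
theorem result : ∃ N : Network, (∀ e, N.len e = 1) ∧ (∀ e, ¬ N.IsBridge e) ∧
    ¬ N.WeaklyEulerian ∧ ∀ (O : N.Q) (v : ℝ), HasValue O v ↔ v = 79 :=
  ⟨neck 20, fun _ => rfl, neck_not_bridge 20, neck_not_we 20 (by norm_num), hasValue_neck_iff⟩

end Pool.Agent.Results.MP_3e0b2d_co.GalConjectureFalse
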