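import Pool.Agent.Helper77.Gal.Fin2

/-!
# Gal's conjecture for networks with a leaf and generic arc lengths

The conjecture that only weakly Eulerian networks have a value which does not depend on the
starting point is false in general (`GalConjectureFalse`).  It is true for networks with a leaf
whose arc lengths are generic; it is even enough that the value is the same at the two ends and at
one interior point of the arc of the leaf.
-/

open Set
open scoped ENNReal NNReal

namespace Pool.Agent.Results.MP_3e0b2d_co.LeafGeneric

open Pool.Agent.Gal

/-- Let `N` be a network with a node `b` of degree one, the end of the arc `e₀`.  Assume that there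
is no nontrivial relation with coefficients in `{-2, …, 2}` between the lengths of the other arcs.
If the value of the search game is the same for the two ends of `e₀` and for one interior point of
`e₀` as starting points, then `N` is weakly Eulerian. -/
theorem result (N : Network) (b : N.V) (e₀ : N.E) (hb : ∑ e, N.inc b e = 1)
    (he₀ : N.inc b e₀ ≠ 0)
    (hgen : ∀ c : N.E → ℤ, (∀ e, |c e| ≤ 2) → c e₀ = 0 → ∑ e, (c e : ℝ) * N.len e = 0 →
      ∀ e, c e = 0)
    (x V : ℝ) (hx : x ∈ Ioo 0 (N.len e₀))
    (h0 : HasValue (N.pt e₀ 0) V) (hX : HasValue (N.pt e₀ x) V)
    (h1 : HasValue (N.pt e₀ (N.len e₀)) V) : N.WeaklyEulerian :=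
  (gal_leaf N b e₀ hb he₀ hx h0 hX h1).2 hgen

end Pool.Agent.Results.MP_3e0b2d_co.LeafGeneric
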